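import Pool.Agent.helper1.UN.SpecU
import Pool.Agent.helper1.UN.Spec3

/-!
# Row unh:VML (MP_cf4097_nt, block H, part U): the Mellin transform of the theta integral
-/

set_option autoImplicit false

open NumberField Complex MeasureTheory NumberField.Units NumberField.Units.dirichletUnitTheorem

open scoped Classical

namespace Pool.Agent.UN

theorem VML_cp (N y : ℝ) (hN : 0 < N) (w : ℂ) : (((N ^ y : ℝ)) : ℂ) ^ w = (N : ℂ) ^ ((y : ℂ) * w) := by
  have h1 : ((N ^ y : ℝ) : ℂ) ≠ 0 := by exact_mod_cast (Real.rpow_pos_of_pos hN y).ne'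
  have h2 : (N : ℂ) ≠ 0 := by exact_mod_cast hN.ne'
  rw [Complex.cpow_def_of_ne_zero h1, Complex.cpow_def_of_ne_zero h2, ← Complex.ofReal_log (Real.rpow_nonneg hN.le y),
    ← Complex.ofReal_log hN.le, Real.log_rpow hN]
  congr 1
  push_cast
  ring

theorem VML_sum {ι : Type} (S : Finset ι) (g : ι → ℝ → ℂ) (z : ℂ) (h : ∀ c ∈ S, MellinConvergent (g c) z) :
    mellin (fun t => ∑ c ∈ S, g c t) z = ∑ c ∈ S, mellin (g c) z := by
  unfold mellin
  have h1 : ∀ t : ℝ, (t : ℂ) ^ (z - 1) • (∑ c ∈ S, g c t) = ∑ c ∈ S, (t : ℂ) ^ (z - 1) • g c t := fun t => Finset.smul_sum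
  simp_rw [h1]
  exact integral_finsetSum S h

theorem VML_le {K : Type} [Field K] [NumberField K] {f : Ideal (𝓞 K)} {χ : Ideal (𝓞 K) → ℂ} (h : HM f χ) (a : Ideal (𝓞 K)) :
    ‖χ a‖ ≤ 1 := by
  by_cases h0 : a = ⊥
  · rw [h0, h.bot, norm_zero]
    exact zero_le_one
  · by_cases h1 : a ⊔ f = ⊤
    · exact (h.unit a h0 h1).le
    · rw [h.zero a h1, norm_zero]
      exact zero_le_one

/-- scaling in the Mellin transform -/
theorem VML_part (Φ : ℝ → ℂ) (C : ℂ) (N n : ℝ) (hN : 0 < N) (hn : 0 < n) (s : ℂ) (h : MellinConvergent Φ ((n : ℂ) * s / 2)) :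
    MellinConvergent (fun ρ : ℝ => C * Φ (ρ * N ^ (-(2 / n)))) ((n : ℂ) * s / 2) ∧
    mellin (fun ρ : ℝ => C * Φ (ρ * N ^ (-(2 / n)))) ((n : ℂ) * s / 2) = C * (N : ℂ) ^ s * mellin Φ ((n : ℂ) * s / 2) := by
  have ha : 0 < N ^ (-(2 / n)) := Real.rpow_pos_of_pos hN _
  have h1 : MellinConvergent (fun ρ : ℝ => Φ (ρ * N ^ (-(2 / n)))) ((n : ℂ) * s / 2) := by
    have h2 := (MellinConvergent.comp_mul_left (f := Φ) (s := (n : ℂ) * s / 2) ha).2 h
    simpa only [mul_comm] using h2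
  refine ⟨h1.const_smul C, ?_⟩
  have h3 := mellin_const_smul (fun ρ : ℝ => Φ (ρ * N ^ (-(2 / n)))) ((n : ℂ) * s / 2) C
  have h4 := mellin_comp_mul_right Φ ((n : ℂ) * s / 2) ha
  have h5 : (((N ^ (-(2 / n)) : ℝ)) : ℂ) ^ (-((n : ℂ) * s / 2)) = (N : ℂ) ^ s := by
    rw [VML_cp N _ hN]
    congr 1
    have hn0 : (n : ℂ) ≠ 0 := by exact_mod_cast hn.ne'
    push_cast
    field_simp
  rw [h4, h5] at h3
  simp only [smul_eq_mul] at h3
  rw [h3]
  ring

theorem VML (hTFE : TFE_stmt) (hVFX : VFX_stmt) (hVFE : VFE_stmt) (hVHD : VHD_stmt) (hVCL : VCL_stmt) (hVMC : VMC_stmt)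
    (hVID : VID_stmt) (hHGC : HGC_stmt) (hPRO : PRO_stmt) : MEL_stmt := by
  intro K _ _ f χ τ m hχ hNT
  obtain ⟨e, δ, ε, b, σ, β, t1, t2, t3, t4, t5, t6, t7, t8⟩ := hTFE K f χ τ m hχ
  have hTF : TF f χ τ m e δ ε b σ β := ⟨t1, t2, t3, t4, t5, t6, t7, t8⟩
  obtain ⟨F, hF⟩ := hVFX K
  obtain ⟨κ₀, hκ⟩ := hVCL K
  obtain ⟨hHM, -⟩ := hHGC K f χ τ m hχ
  obtain ⟨p1, -, p2, -, -, p3, -⟩ := hPRO K
  obtain ⟨v1, v2, v3⟩ := hVHD K f χ τ m e δ ε b σ β F hχ hNT hTF hF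
  have hn : (0 : ℝ) < (Module.finrank ℚ K : ℝ) := by exact_mod_cast p1
  have hq : 0 < Dc K * Nm f := by nlinarith [p3 f hχ.f0]
  obtain ⟨n, hndef⟩ : ∃ n : ℝ, n = (Module.finrank ℚ K : ℝ) := ⟨_, rfl⟩
  obtain ⟨q, hqdef⟩ : ∃ q : ℝ, q = Dc K * Nm f := ⟨_, rfl⟩
  obtain ⟨A, hAdef⟩ : ∃ A : ℝ, A = q ^ (-(1 / n)) := ⟨_, rfl⟩
  rw [← hndef] at hn
  rw [← hqdef] at hq
  have hA : 0 < A := by
    rw [hAdef]
    exact Real.rpow_pos_of_pos hq _
  have hT : (0 : ℝ) < (torsionOrder K : ℝ) := by exact_mod_cast torsionOrder_pos K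
  refine ⟨e, ε, torsionOrder K * κ₀, fun r => Hh F δ b χ τ (aa m e) (A * r), t4, t5, t3, mul_pos hT hκ.1, ?_, ?_, ?_, ?_⟩
  · exact v2.comp (continuous_const.mul continuous_id).continuousOn fun x hx => mul_pos hA hx
  · intro r
    have h1 : Filter.Tendsto (fun x : ℝ => A * x) Filter.atTop Filter.atTop :=
      Filter.Tendsto.const_mul_atTop hA Filter.tendsto_id
    have h2 := (v3 r).comp_tendsto h1
    have h3 : ((fun x : ℝ => x ^ r) ∘ fun x : ℝ => A * x) =ᶠ[Filter.atTop] fun x : ℝ => A ^ r * x ^ r := by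
      filter_upwards [Filter.eventually_gt_atTop 0] with x hx
      exact Real.mul_rpow hA.le hx.le
    exact (h2.trans_eventuallyEq h3).trans (Asymptotics.isBigO_const_mul_self _ _ _)
  · intro x hx
    have hρ : 0 < A * (1 / x) := by positivity
    have h1 := hVFE K f χ τ m e δ ε b σ β F hχ hTF hF (A * (1 / x)) hρ
    rw [← hndef, ← hqdef] at h1
    have h2 : q ^ (-(1 / 2 : ℝ)) * (A * (1 / x)) ^ (-(n / 2)) = x ^ (n / 2) := by
      rw [Real.mul_rpow hA.le (by positivity), hAdef, ← Real.rpow_mul hq.le, one_div x, Real.inv_rpow hx.le,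
        Real.rpow_neg hx.le, inv_inv, ← mul_assoc, ← Real.rpow_add hq]
      have h3 : -(1 / 2 : ℝ) + -(1 / n) * -(n / 2) = 0 := by
        field_simp
        ring
      rw [h3, Real.rpow_zero, one_mul]
    have h4 : 1 / (A * (1 / x) * q ^ (2 / n)) = A * x := by
      have h5 : A * q ^ (2 / n) * A = 1 := by
        rw [hAdef, ← Real.rpow_add hq, ← Real.rpow_add hq]
        have h3 : -(1 / n) + 2 / n + -(1 / n) = 0 := by ring
        rw [h3, Real.rpow_zero]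
      have h6 : 0 < q ^ (2 / n) := Real.rpow_pos_of_pos hq _
      rw [div_eq_iff (by positivity)]
      field_simp
      linarith
    show Hh F δ b χ τ (aa m e) (A * (1 / x)) = ε * ((x ^ ((Module.finrank ℚ K : ℝ) / 2) : ℝ) : ℂ) *
      (starRingEnd ℂ) (Hh F δ b χ τ (aa m e) (A * x))
    rw [h1, h2, h4, ← hndef]
  · intro s hs
    obtain ⟨i1, i2⟩ := hVID K f χ b s hHM t1 t2 hs
    have hs0 : 0 < s.re := by linarith
    have hc : ∀ c : ClassGroup (𝓞 K), MellinConvergent (fun ρ : ℝ => ∫ l in F, Th0 (b c) χ τ (aa m e) (Yl ρ l)) ((n : ℂ) * s / 2) ∧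
        mellin (fun ρ : ℝ => ∫ l in F, Th0 (b c) χ τ (aa m e) (Yl ρ l)) ((n : ℂ) * s / 2) =
          (torsionOrder K : ℂ) * (κ₀ * gf τ (aa m e) s) *
            ∑' I : Pr (b c), χ (I : Ideal (𝓞 K)) * (Nm (I : Ideal (𝓞 K)) : ℂ) ^ (-s) := by
      intro c
      have h1 := hVMC K κ₀ (b c) χ τ (aa m e) F s hκ hF (t1 c).1 (VML_le hHM) hHM.bot hs0 (i1 c)
      have h2 : ((Module.finrank ℚ K : ℕ) : ℂ) = (n : ℂ) := by
        rw [hndef]
        push_cast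
        rfl
      rw [h2] at h1
      exact h1
    have hN : ∀ c : ClassGroup (𝓞 K), 0 < Nm (b c) := fun c => by linarith [p3 (b c) (t1 c).1]
    have hp := fun c : ClassGroup (𝓞 K) => VML_part _ ((starRingEnd ℂ) (χ (b c))) (Nm (b c)) n (hN c) hn s (hc c).1
    have h3 : mellin (Hh F δ b χ τ (aa m e)) ((n : ℂ) * s / 2) =
        mellin (fun ρ : ℝ => ∑ c, (starRingEnd ℂ) (χ (b c)) *
          (fun ρ : ℝ => ∫ l in F, Th0 (b c) χ τ (aa m e) (Yl ρ l)) (ρ * Nm (b c) ^ (-(2 / n)))) ((n : ℂ) * s / 2) := by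
      unfold mellin
      refine setIntegral_congr_fun measurableSet_Ioi fun ρ hρ => ?_
      have h4 := v1 ρ hρ
      rw [← hndef] at h4
      show (ρ : ℂ) ^ ((n : ℂ) * s / 2 - 1) • Hh F δ b χ τ (aa m e) ρ = _
      rw [h4]
    rw [VML_sum _ _ _ (fun c _ => (hp c).1)] at h3
    have h5 : mellin (fun r : ℝ => Hh F δ b χ τ (aa m e) (A * r)) ((n : ℂ) * s / 2) =
        (q : ℂ) ^ (s / 2) * mellin (Hh F δ b χ τ (aa m e)) ((n : ℂ) * s / 2) := by
      rw [mellin_comp_mul_left _ _ hA, smul_eq_mul, hAdef, VML_cp q _ hq]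
      congr 2
      have hn0 : (n : ℂ) ≠ 0 := by exact_mod_cast hn.ne'
      push_cast
      field_simp
    have h6 : ((Module.finrank ℚ K : ℕ) : ℂ) = (n : ℂ) := by
      rw [hndef]
      push_cast
      rfl
    rw [h6, ← hqdef, h5, h3, ← i2, Finset.mul_sum, Finset.mul_sum]
    refine Finset.sum_congr rfl fun c _ => ?_
    rw [(hp c).2, (hc c).2]
    push_cast
    ring

end Pool.Agent.UN
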