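import Pool.Agent.helper82.UN.SpecP

/-!
# Row unh:PIV (MP_cf4097_nt, block H, part P): the Fourier integral over the mixed space
-/

set_option autoImplicit false

open NumberField Complex MeasureTheory nonZeroDivisors

namespace Pool.Agent.UN

/-- the local polynomial factor -/
noncomputable def PIV_P (m : ℤ) (e : ℕ) (z : ℂ) : ℂ :=
  z ^ e * (if 0 ≤ m then z ^ m.natAbs else ((starRingEnd ℂ) z) ^ m.natAbs)

/-- the local integrand -/
noncomputable def PIV_g (m : ℤ) (e : ℕ) (n : ℕ) (y : ℝ) (ξ : ℂ) (z : ℂ) : ℂ :=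
  PIV_P m e z * (Real.exp (-(Real.pi * (n * y * ‖z‖ ^ 2))) : ℂ) * ee (-(n * (ξ * z).re))

/-- the local value -/
noncomputable def PIV_r (m : ℤ) (e : ℕ) (n : ℕ) (y : ℝ) (ξ : ℂ) : ℂ :=
  (-I) ^ (e + m.natAbs) * ((y ^ (-((n : ℝ) / 2 + (e + m.natAbs : ℕ))) : ℝ) : ℂ) *
    ((starRingEnd ℂ) (PIV_P m e ξ) * (Real.exp (-(Real.pi * (n * (1 / y) * ‖ξ‖ ^ 2))) : ℂ))

theorem PIV_ee {ι : Type} (s : Finset ι) (f : ι → ℝ) : ee (-(∑ i ∈ s, f i)) = ∏ i ∈ s, ee (-(f i)) := by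
  unfold ee
  rw [← Complex.exp_sum]
  congr 1
  rw [← Finset.sum_mul, ← Complex.ofReal_sum, ← Finset.sum_neg_distrib, ← Finset.mul_sum]

theorem PIV_exp {ι : Type} (s : Finset ι) (f : ι → ℝ) :
    (Real.exp (-(Real.pi * ∑ i ∈ s, f i)) : ℂ) = ∏ i ∈ s, (Real.exp (-(Real.pi * f i)) : ℂ) := by
  rw [← Complex.ofReal_prod, ← Real.exp_sum, Finset.mul_sum, Finset.sum_neg_distrib]

theorem PIV_real (hPGR : PGR_stmt) (e : ℕ) (y ρ : ℝ) (hy : 0 < y) (he : e ≤ 1) :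
    ∫ s : ℝ, PIV_g 0 e 1 y (ρ : ℂ) (s : ℂ) = PIV_r 0 e 1 y (ρ : ℂ) := by
  have h1 := hPGR y ρ e hy he
  have h2 : ∀ s : ℝ, PIV_g 0 e 1 y (ρ : ℂ) (s : ℂ) =
      (s : ℂ) ^ e * (Real.exp (-(Real.pi * y * s ^ 2)) : ℂ) * ee (-(ρ * s)) := by
    intro s
    unfold PIV_g PIV_P
    have h3 : ‖(s : ℂ)‖ ^ 2 = s ^ 2 := by rw [Complex.norm_real, Real.norm_eq_abs, sq_abs]
    have h4 : ((ρ : ℂ) * (s : ℂ)).re = ρ * s := by rw [← Complex.ofReal_mul, Complex.ofReal_re]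
    rw [h3, h4]
    have h5 : -(Real.pi * (((1 : ℕ) : ℝ) * y * s ^ 2)) = -(Real.pi * y * s ^ 2) := by push_cast; ring
    have h6 : -(((1 : ℕ) : ℝ) * (ρ * s)) = -(ρ * s) := by push_cast; ring
    rw [h5, h6]
    simp
  simp_rw [h2]
  rw [h1]
  unfold PIV_r PIV_P
  have h3 : ‖(ρ : ℂ)‖ ^ 2 = ρ ^ 2 := by rw [Complex.norm_real, Real.norm_eq_abs, sq_abs]
  rw [h3]
  have h5 : -(Real.pi * (((1 : ℕ) : ℝ) * (1 / y) * ρ ^ 2)) = -(Real.pi * (1 / y) * ρ ^ 2) := by push_cast; ring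
  have h6 : (-((((1 : ℕ) : ℝ)) / 2 + ((e + (0 : ℤ).natAbs : ℕ) : ℝ))) = -((1 : ℝ) / 2 + e) := by simp
  rw [h5, h6]
  simp only [Int.natAbs_zero, add_zero, le_refl, if_true, pow_zero, mul_one, map_pow, Complex.conj_ofReal]
  ring

theorem PIV_cpx (hPGC : PGC_stmt) (hPGJ : PGJ_stmt) (m : ℤ) (y : ℝ) (ξ : ℂ) (hy : 0 < y) :
    ∫ z : ℂ, PIV_g m 0 2 y ξ z = 1 / 2 * PIV_r m 0 2 y ξ := by
  have h5 : ∀ t : ℝ, ∀ z : ℂ, -(Real.pi * (((2 : ℕ) : ℝ) * t * ‖z‖ ^ 2)) = -(Real.pi * 2 * t * ‖z‖ ^ 2) := by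
    intro t z
    push_cast
    ring
  have h6 : ∀ z : ℂ, -(((2 : ℕ) : ℝ) * (ξ * z).re) = -(2 * (ξ * z).re) := by
    intro z
    push_cast
    ring
  have h7 : (-((((2 : ℕ) : ℝ)) / 2 + ((0 + m.natAbs : ℕ) : ℝ))) = -((1 : ℝ) + (m.natAbs : ℝ)) := by
    push_cast
    ring
  by_cases hm : 0 ≤ m
  · have h1 := hPGC y ξ m.natAbs hy
    have h2 : ∀ z : ℂ, PIV_g m 0 2 y ξ z = z ^ m.natAbs * (Real.exp (-(Real.pi * 2 * y * ‖z‖ ^ 2)) : ℂ) * ee (-(2 * (ξ * z).re)) := by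
      intro z
      unfold PIV_g PIV_P
      rw [if_pos hm, h5, h6, pow_zero, one_mul]
    simp_rw [h2]
    rw [h1]
    unfold PIV_r PIV_P
    rw [if_pos hm, h5, h7, pow_zero, one_mul, map_pow, zero_add]
    ring
  · have h1 := hPGJ y ξ m.natAbs hy
    have h2 : ∀ z : ℂ, PIV_g m 0 2 y ξ z =
        ((starRingEnd ℂ) z) ^ m.natAbs * (Real.exp (-(Real.pi * 2 * y * ‖z‖ ^ 2)) : ℂ) * ee (-(2 * (ξ * z).re)) := by
      intro z
      unfold PIV_g PIV_P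
      rw [if_neg hm, h5, h6, pow_zero, one_mul]
    simp_rw [h2]
    rw [h1]
    unfold PIV_r PIV_P
    rw [if_neg hm, h5, h7, pow_zero, one_mul, map_pow, zero_add, Complex.conj_conj]
    ring

open scoped Classical in
theorem PIV (hPMX : PMX_stmt) (hPGR : PGR_stmt) (hPGC : PGC_stmt) (hPGJ : PGJ_stmt) : PIV_stmt := by
  intro K _ _ m e y ξ hm he hec hy
  obtain ⟨g, hg⟩ : ∃ g : InfinitePlace K → ℂ → ℂ, g = fun w z => PIV_g (m w) (e w) w.mult (y w) (w.embedding ξ) z := ⟨_, rfl⟩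
  obtain ⟨r, hr⟩ : ∃ r : InfinitePlace K → ℂ, r = fun w => PIV_r (m w) (e w) w.mult (y w) (w.embedding ξ) := ⟨_, rfl⟩
  have h1 : ∀ x : mixedEmbedding.mixedSpace K, Pf m e (cw x) * (Gf y (cw x) : ℂ) *
      ee (-(∑ w : InfinitePlace K, (w.mult : ℝ) * (w.embedding ξ * cw x w).re)) = ∏ w : InfinitePlace K, g w (cw x w) := by
    intro x
    unfold Pf Gf
    rw [PIV_exp, PIV_ee, ← Finset.prod_mul_distrib, ← Finset.prod_mul_distrib, hg]
    rfl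
  simp_rw [h1]
  rw [hPMX K g]
  have h2 : ∀ w : {w : InfinitePlace K // w.IsReal}, ∫ s : ℝ, g w.1 (s : ℂ) = r w.1 := by
    intro w
    have h3 := PIV_real hPGR (e w.1) (y w.1) (InfinitePlace.embedding_of_isReal w.2 ξ) (hy w.1) (he w.1)
    rw [hg, hr]
    simp only
    rw [hm w.1 w.2, InfinitePlace.mult_isReal w, ← InfinitePlace.embedding_of_isReal_apply w.2]
    exact h3
  have h3 : ∀ w : {w : InfinitePlace K // w.IsComplex}, ∫ z : ℂ, g w.1 z = 1 / 2 * r w.1 := by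
    intro w
    have h3 := PIV_cpx hPGC hPGJ (m w.1) (y w.1) (w.1.embedding ξ) (hy w.1)
    rw [hg, hr]
    simp only
    rw [hec w.1 w.2, InfinitePlace.mult_isComplex w]
    exact h3
  rw [Finset.prod_congr rfl (fun w _ => h2 w), Finset.prod_congr rfl (fun w _ => h3 w), Finset.prod_mul_distrib, Finset.prod_const]
  have h4 : ∏ w : {w : InfinitePlace K // w.IsComplex}, r w.1 = ∏ w : {w : InfinitePlace K // ¬ w.IsReal}, r w.1 :=
    Fintype.prod_equiv (Equiv.subtypeEquivRight fun w => InfinitePlace.not_isReal_iff_isComplex.symm) _ _ fun w => rfl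
  have h5 : (∏ w : {w : InfinitePlace K // w.IsReal}, r w.1) * ∏ w : {w : InfinitePlace K // w.IsComplex}, r w.1 =
      ∏ w : InfinitePlace K, r w := by
    rw [h4]
    exact Fintype.prod_subtype_mul_prod_subtype _ r
  have h6 : ∏ w : InfinitePlace K, r w = (-I) ^ (∑ w, aa m e w) *
      ((∏ w : InfinitePlace K, (y w) ^ (-((w.mult : ℝ) / 2 + aa m e w)) : ℝ) : ℂ) *
      ((starRingEnd ℂ) (Pm m e ξ) * (Ga (fun w => 1 / y w) ξ : ℂ)) := by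
    unfold Pm Ga
    rw [PIV_exp, map_prod, ← Finset.prod_pow_eq_pow_sum, Complex.ofReal_prod, ← Finset.prod_mul_distrib, ← Finset.prod_mul_distrib,
      ← Finset.prod_mul_distrib, hr]
    refine Finset.prod_congr rfl fun w _ => ?_
    have h8 : ‖w.embedding ξ‖ = w ξ := InfinitePlace.norm_embedding_eq w ξ
    unfold PIV_r PIV_P aa
    simp only [h8]
  have h7 : (Finset.univ : Finset {w : InfinitePlace K // w.IsComplex}).card = InfinitePlace.nrComplexPlaces K := by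
    rw [Finset.card_univ]
  rw [h7, mul_left_comm, h5, h6]
  ring

end Pool.Agent.UN
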