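import Pool.Agent.helper1.UN.SpecU
import Pool.Agent.helper27.UN.SUM

/-!
# Row unh:VID (MP_cf4097_nt, block H, part U): from the classes to all ideals
-/

set_option autoImplicit false

open NumberField Complex MeasureTheory NumberField.Units NumberField.Units.dirichletUnitTheorem

open scoped Classical

namespace Pool.Agent.UN

theorem VID_le {K : Type} [Field K] [NumberField K] {f : Ideal (𝓞 K)} {χ : Ideal (𝓞 K) → ℂ} (h : HM f χ) (a : Ideal (𝓞 K)) :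
    ‖χ a‖ ≤ 1 := by
  by_cases h0 : a = ⊥
  · rw [h0, h.bot, norm_zero]
    exact zero_le_one
  · by_cases h1 : a ⊔ f = ⊤
    · exact (h.unit a h0 h1).le
    · rw [h.zero a h1, norm_zero]
      exact zero_le_one

theorem VID_norm {K : Type} [Field K] [NumberField K] {f : Ideal (𝓞 K)} {χ : Ideal (𝓞 K) → ℂ} (h : HM f χ) (s : ℂ) (a : Ideal (𝓞 K)) :
    ‖χ a * (Nm a : ℂ) ^ (-s)‖ = ‖χ a‖ * Nm a ^ (-s.re) := by
  by_cases h0 : a = ⊥
  · rw [h0, h.bot]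
    simp
  · have h1 : 0 < Nm a := by linarith [SUM_nm h0]
    rw [norm_mul, Complex.norm_cpow_eq_rpow_re_of_pos h1, Complex.neg_re]

/-- the ideals of the class `c⁻¹` correspond to the principal ideals in `b c` -/
noncomputable def VID_eq {K : Type} [Field K] [NumberField K] {b : ClassGroup (𝓞 K) → Ideal (𝓞 K)} (hb : Rep b) (c : ClassGroup (𝓞 K)) :
    {a : Ideal (𝓞 K) | a ≠ ⊥ ∧ SUM_cl a = c} ≃ Pr (b c) :=
  Equiv.ofBijective (fun a => ⟨b c * (a : Ideal (𝓞 K)), mul_ne_zero (hb c).1 a.2.1, Ideal.dvd_iff_le.1 (dvd_mul_right _ _), (SUM_prin hb c a a.2.1).2 a.2.2⟩)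
    ⟨fun a a' h => Subtype.ext (mul_left_cancel₀ (show b c ≠ 0 from (hb c).1) (congrArg Subtype.val h)), by
      rintro ⟨I, hI, hle, x, hx⟩
      obtain ⟨a, ha⟩ := Ideal.dvd_iff_le.2 hle
      have ha0 : a ≠ ⊥ := by
        rintro rfl
        exact hI (by rw [ha, Ideal.mul_bot])
      exact ⟨⟨a, ha0, (SUM_prin hb c a ha0).1 ⟨x, by rw [← ha, hx]⟩⟩, Subtype.ext ha.symm⟩⟩

theorem VID_eq_apply {K : Type} [Field K] [NumberField K] {b : ClassGroup (𝓞 K) → Ideal (𝓞 K)} (hb : Rep b) (c : ClassGroup (𝓞 K))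
    (a : {a : Ideal (𝓞 K) | a ≠ ⊥ ∧ SUM_cl a = c}) : ((VID_eq hb c a : Pr (b c)) : Ideal (𝓞 K)) = b c * (a : Ideal (𝓞 K)) := rfl

theorem VID (hVZS : VZS_stmt) : VID_stmt := by
  intro K _ _ f χ b s hχ hb hcop hs
  have hsum := hVZS K χ s.re (VID_le hχ) hχ.bot hs
  have hT : Summable (fun a : Ideal (𝓞 K) => χ a * (Nm a : ℂ) ^ (-s)) := by
    refine Summable.of_norm ?_
    simp_rw [VID_norm hχ s]
    exact hsum
  refine ⟨fun c => hsum.comp_injective Subtype.val_injective, ?_⟩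
  have key : ∀ c : ClassGroup (𝓞 K), (starRingEnd ℂ) (χ (b c)) * (Nm (b c) : ℂ) ^ s *
      ∑' I : Pr (b c), χ (I : Ideal (𝓞 K)) * (Nm (I : Ideal (𝓞 K)) : ℂ) ^ (-s) =
      ∑' a : Ideal (𝓞 K), {a : Ideal (𝓞 K) | a ≠ ⊥ ∧ SUM_cl a = c}.indicator (fun a => χ a * (Nm a : ℂ) ^ (-s)) a := by
    intro c
    have hN : 0 < Nm (b c) := by linarith [SUM_nm (hb c).1]
    have hN0 : (Nm (b c) : ℂ) ≠ 0 := by exact_mod_cast hN.ne'
    rw [← tsum_subtype, ← (VID_eq hb c).tsum_eq, ← tsum_mul_left]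
    refine tsum_congr fun a => ?_
    rw [VID_eq_apply, hχ.mul, SUM_nmul]
    have h1 : (starRingEnd ℂ) (χ (b c)) * χ (b c) = 1 := by
      rw [mul_comm, Complex.mul_conj, Complex.normSq_eq_norm_sq, hχ.unit _ (hb c).1 (hcop c)]
      simp
    have h2 : (((Nm (b c) * Nm (a : Ideal (𝓞 K)) : ℝ)) : ℂ) ^ (-s) = (Nm (b c) : ℂ) ^ (-s) * (Nm (a : Ideal (𝓞 K)) : ℂ) ^ (-s) := by
      rw [Complex.ofReal_mul]
      exact Complex.mul_cpow_ofReal_nonneg hN.le (by linarith [SUM_nm a.2.1]) _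
    have h3 : (Nm (b c) : ℂ) ^ s * (Nm (b c) : ℂ) ^ (-s) = 1 := by
      rw [← Complex.cpow_add _ _ hN0, add_neg_cancel, Complex.cpow_zero]
    rw [h2]
    linear_combination ((Nm (b c) : ℂ) ^ s * (Nm (b c) : ℂ) ^ (-s)) * χ (a : Ideal (𝓞 K)) * (Nm (a : Ideal (𝓞 K)) : ℂ) ^ (-s) * h1 +
      χ (a : Ideal (𝓞 K)) * (Nm (a : Ideal (𝓞 K)) : ℂ) ^ (-s) * h3
  rw [Finset.sum_congr rfl (fun c _ => key c), ← Summable.tsum_finsetSum (fun c _ => hT.indicator _)]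
  refine tsum_congr fun a => ?_
  by_cases ha : a = ⊥
  · rw [ha, hχ.bot, zero_mul]
    refine Finset.sum_eq_zero fun c _ => Set.indicator_of_notMem (fun h => h.1 rfl) _
  · rw [Finset.sum_eq_single (SUM_cl a)]
    · exact Set.indicator_of_mem (show a ∈ {a' : Ideal (𝓞 K) | a' ≠ ⊥ ∧ SUM_cl a' = SUM_cl a} from ⟨ha, rfl⟩) _
    · intro c _ hc
      exact Set.indicator_of_notMem (fun h => hc h.2.symm) _
    · intro h
      exact absurd (Finset.mem_univ _) h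

end Pool.Agent.UN
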